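import Pool.Agent.Run7.h740.BC.Cubic

/-!
# Smooth subvarieties of every codimension: cubic Chern roots generate fields of large discriminant

Let `X ⊂ ℙ^N` be a smooth subvariety of codimension `r`, `N ≥ 4 r`. By Barth and Larsen the groups
`H^(2 i)(X, ℤ)`, `i ≤ r`, are generated by the powers of the hyperplane class `h`, and `Pic X = ℤ h`;
so `ω_X = O_X(k)` for some `k`, and the Chern polynomial `P = T^r - c₁ T^(r-1) + c₂ T^(r-2) - ...` of
the normal bundle (`c_i(N_X) = c_i h^i`) has integral coefficients, `c₁ = k + N + 1` by adjunction.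
Its complex roots are the Chern roots of `N_X` in units of `h`. `X` is numerically a complete
intersection of hypersurfaces of degrees `a_1, ..., a_r` if and only if
`P = (T - a_1) ... (T - a_r)`. The following is known:

* `N_X(-1)`, a quotient of `T_ℙ(-1)`, is globally generated, so its Schur polynomials are not negative
  (for all nef bundles: Demailly, Peternell, Schneider): `c_i ≥ 0` and `c_1 c_i - c_(i+1) ≥ 0` for the
  Chern classes of `N_X(-1)`; these are the signed coefficients of `P(T + 1)`;
* `χ(O_X(t))` is an integer for all `t`; by the theorem of Riemann-Roch it is the Koszul sum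
  `Σ_S (-1)^|S| χ(ℙ^N, O(t - Σ_(i ∈ S) β_i))`;
* `χ(N_X^*(t))` is an integer for all `t`; it is `Σ_i χ(O_X(t - β_i))`.

We show: for all `r ≥ 1`, `ε > 0` there are `c > 0` and `N₀` such that for `N ≥ N₀` and `k ≤ exp (N ^ c)`: let
`Q = T³ - u T² + v T - w` be a divisor of `P` with integral coefficients, and let its discriminant
be `f s²` with a squarefree integer `f`. If

  `|f| ≤ N ^ (4 √e - ε)`,   `4 √e = 6.59…`,

and if the product of the primes dividing `s` and `u² - 3 v`, modulo which `Q` is a cube
`(T - t)³` (or `p = 3`), is at most `N ^ (2 √e - ε)`, then `Q = (T - a) (T - b) (T - c)` with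
positive integers `a`, `b`, `c`. Both conditions hold if the discriminant of `Q` has absolute value
at most `N ^ (4 √e - 2 ε)`: then `|s| ≤ N ^ (2 √e - ε)`. So Chern roots of degree three over `ℚ` have
discriminant larger than `N ^ (4 √e - ε)`, for all `X` with `k ≤ exp (N ^ c)`; in codimension three `Q` can
be `P`, and `X` is numerically a complete intersection if the discriminant of its Chern polynomial
is at most `N ^ (4 √e - ε)`.

The starting theorem `SmallCanonicalClass` has `k ≤ N ^ (2 √e / 3 - ε)`, so that the discriminants of all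
the divisors of degree three are less than `N ^ (4 √e - ε)`.

The proof. The two integrality conditions imply that `P` splits modulo every prime
`r < p ≤ N - 2 r + 1` which does not divide the degree (project HC of the starting files). So `f` is a
square modulo all these primes which do not divide `P(0) s`, hence `f = 1` by the bound of Burgess, the
fundamental lemma of the sieve and the method of Vinogradov
(`Pool.Agent.Run7.h740.BC.Main4`, see `Pool.Agent.Results.MP_b01859_ag.HugeDiscriminants`). If `Q` has no
integral root, it is a cyclic cubic polynomial; by cubic reciprocity (project HC) there is a cubic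
character `χ`, the conductor of which is nine times a product of primes modulo which `Q` is a cube, with
`χ(p) = 1` for all primes `p ≤ N - 2 r` which do not divide a number `B` of size `exp (O(N ^ c))`. We show in
`Pool.Agent.Run7.h740.BC.Ana` that there is no such character: the values of `χ` at all primes up to `N ^ c'`
can be changed to one without making the sums of `χ` large (fundamental lemma of the sieve with the weights
`1 + Re (u χ)`, Rankin's method), by the inequality of Polya and Vinogradov, and then the method of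
Vinogradov applies, since `B` has few prime factors larger than `N ^ c'`.
-/

set_option autoImplicit false

namespace Pool.Agent.Results.MP_9a3fdb_ag.CubicChernRoots

open Polynomial

/-- The Chern roots: the complex roots of `P` with multiplicities. -/
noncomputable def chernRoots (P : ℤ[X]) : Multiset ℂ := (P.map (Int.castRingHom ℂ)).roots

/-- The Chern numbers of `N_X(-1)`: `(-1)^i` times the coefficient of `T^(r - i)` in `P(T + 1)`,
`i ≤ r`. -/
noncomputable def chernTwist (r : ℕ) (P : ℤ[X]) (i : ℕ) : ℤ :=
  (-1) ^ i * (P.comp (X + 1)).coeff (r - i)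

/-- `χ(ℙ^N, O(x)) = (x + 1) ... (x + N) / N!`. -/
noncomputable def chiPN (N : ℕ) (x : ℂ) : ℂ :=
  (∏ j ∈ Finset.range N, (x + j + 1)) / N.factorial

/-- `χ(O_X(x)) = Σ_S (-1)^|S| χ(ℙ^N, O(x - β_S))`, `S` running over the submultisets of the multiset
of the Chern roots of the normal bundle, `β_S` the sum of the elements of `S`. -/
noncomputable def chiX (N : ℕ) (P : ℤ[X]) (x : ℂ) : ℂ :=
  ((chernRoots P).powerset.map fun S => (-1) ^ Multiset.card S * chiPN N (x - S.sum)).sum

/-- `χ(N_X^*(x)) = Σ_i χ(O_X(x - β_i))`. -/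
noncomputable def chiConormal (N : ℕ) (P : ℤ[X]) (x : ℂ) : ℂ :=
  ((chernRoots P).map fun b => chiX N P (x - b)).sum

/-- The product of the primes which divide `s` and `u² - 3 v`; for a prime `p ≠ 3` which divides the
discriminant `f s²` and `u² - 3 v` the polynomial `T³ - u T² + v T - w` is a cube modulo `p`. -/
def cubeRadical (u v s : ℤ) : ℕ :=
  ∏ p ∈ s.natAbs.primeFactors.filter (fun p : ℕ => (p : ℤ) ∣ u ^ 2 - 3 * v), p

open Pool.Agent.N17.HC in
theorem bin_eq (N : ℕ) (x : ℂ) : bin N (N + x) = chiPN N x := by
  unfold bin chiPN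
  congr 1
  rw [← Finset.prod_range_reflect]
  refine Finset.prod_congr rfl fun j hj => ?_
  have hj' := Finset.mem_range.1 hj
  rw [show N - 1 - j = N - (j + 1) by omega, Nat.cast_sub (by omega)]
  push_cast
  ring

open Pool.Agent.N17.HC in
theorem kos_eq (N : ℕ) (P : ℤ[X]) (x : ℂ) : kos N (rootsOf P) (N + x) = chiX N P x := by
  unfold kos chiX
  change Multiset.sum (Multiset.map _ (Multiset.powerset (chernRoots P))) = _
  congr 1
  refine Multiset.map_congr rfl fun S _ => ?_
  rw [add_sub_assoc, bin_eq]

/-- **Cubic Chern roots of smooth subvarieties of codimension `r` of `ℙ^N` have large discriminant.** -/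
theorem result (r : ℕ) (hr : 1 ≤ r) (ε : ℝ) (hε : 0 < ε) : ∃ c : ℝ, 0 < c ∧ ∃ N₀ : ℕ, ∀ N : ℕ, N₀ ≤ N →
    ∀ P : ℤ[X], P.Monic → P.natDegree = r →
    -- the Schur polynomials `c_i` and `c_1 c_i - c_(i+1)` of `N_X(-1)` are not negative
    (∀ i ≤ r, 0 ≤ chernTwist r P i) →
    (∀ i < r, chernTwist r P (i + 1) ≤ chernTwist r P 1 * chernTwist r P i) →
    -- the Euler characteristics of `O_X(t)` and of `N_X^*(t)` are integers
    (∀ t : ℤ, ∃ z : ℤ, chiX N P t = z) →
    (∀ t : ℤ, ∃ z : ℤ, chiConormal N P t = z) →
    -- `ω_X = O_X(k)`: `c_1(N_X) = k + N + 1`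
    ∀ k : ℤ, P.coeff (r - 1) = - (k + N + 1) → (k : ℝ) ≤ Real.exp ((N : ℝ) ^ c) →
    -- a divisor of `P` of degree three, with the discriminant `f s²`, `f` squarefree and not too large
    ∀ u v w f s : ℤ, X ^ 3 - C u * X ^ 2 + C v * X - C w ∣ P →
    u ^ 2 * v ^ 2 - 4 * v ^ 3 - 4 * u ^ 3 * w + 18 * u * v * w - 27 * w ^ 2 = f * s ^ 2 → Squarefree f →
    (|f| : ℤ) ≤ (N : ℝ) ^ (4 * Real.exp (1 / 2) - ε) →
    -- the product of the primes modulo which the divisor is a cube is not too large
    (cubeRadical u v s : ℝ) ≤ (N : ℝ) ^ (2 * Real.exp (1 / 2) - ε) →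
    -- the divisor has positive integral roots
    ∃ a b c : ℤ, 1 ≤ a ∧ 1 ≤ b ∧ 1 ≤ c ∧
      X ^ 3 - C u * X ^ 2 + C v * X - C w = (X - C a) * (X - C b) * (X - C c) := by
  obtain ⟨c, hc0, h⟩ := Pool.Agent.Run7.h740.BC.cubic5 r hr ε hε
  obtain ⟨N₀, h'⟩ := Filter.eventually_atTop.mp h
  refine ⟨c, hc0, N₀, fun N hN P hP hd hpos hsch h1 h2 k hk hkN u v w f s hdvd hfs hf hfN hrad =>
    h' N hN P hP hd hpos hsch ?_ ?_ k hk hkN u v w f s hdvd hfs hf hfN hrad⟩
  · intro t
    obtain ⟨z, hz⟩ := h1 t
    exact ⟨z, by rw [kos_eq]; exact hz⟩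
  · intro t
    obtain ⟨z, hz⟩ := h2 t
    refine ⟨z, ?_⟩
    rw [← hz]
    unfold chiConormal
    change Multiset.sum (Multiset.map _ (chernRoots P)) = _
    congr 1
    refine Multiset.map_congr rfl fun b _ => ?_
    rw [add_sub_assoc, kos_eq]

end Pool.Agent.Results.MP_9a3fdb_ag.CubicChernRoots
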