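import Pool.Agent.Run7.h572.FD.Cnt

/-!
# Subvarieties of codimension two of `ℙⁿ`: few pairs of a degree and a canonical class are not those of a
# transversal intersection of two hypersurfaces

Q1 asks whether, for every `r`, all nonsingular `X ⊂ ℙⁿ` of codimension `r` are transversal intersections
of `r` hypersurfaces if `n` is large. Let `r = 2`, `n ≥ 7`, and let `X` have degree `d`. By Barth and Larsen
`ω_X = 𝒪_X(k)` for an integer `k`, and by Serre there is a vector bundle of rank two on `ℙⁿ` with the Chern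
classes `c₁ = k + n + 1`, `c₂ = d` and a section with the scheme of zeros `X`. The normal bundle of `X`
twisted by `-1` is globally generated, so `0 < c₁ ≤ d + 1`. By the theorem of Riemann-Roch the Riemann-Roch
conditions on `ℙⁿ` hold for `T² - c₁ T + c₂`. We call a pair `(k, d)` with these properties possible.

We show: for all real `A` and `ε > 0`, all sufficiently large `n` and all `1 ≤ Y ≤ n ^ A`

(1) at most `Y / n ^ (2 √e - ε)` possible pairs `(k, d)`, `d ≤ Y`, are not the pairs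
`(a + b - n - 1, a b)`, `a, b ≥ 1`, of a transversal intersection of hypersurfaces of degrees `a`, `b`;

(2) so for all but at most `Y / n ^ (2 √e - ε)` of the integers `d ≤ Y` every nonsingular `X ⊂ ℙⁿ` of
codimension two and degree `d` has the canonical class (hence the Chern classes of the normal bundle and
the Hilbert polynomial) of a transversal intersection of two hypersurfaces.

Here `2 √e = 3.29…`, so that for `Y < n ^ (2 √e - ε)` there is no exception.

The proof is that of the result `MP_014caa_ag.FewExceptionalDegrees` of helper572 (which is stated there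
for the conjecture `n > 2 N / 3`), built on the theorems of helper852 of the kind of Burgess and Linnik: the
discriminant `D = c₁² - 4 d` is a square modulo all odd primes `p < n`; if it is not a square, write
`D = f s²` with `f` squarefree; there are at most `n ^ ε` possible `f`, all at least `n ^ (4 √e - ε)`, and
for given `f`, `s` the possible `c₁` are in an interval of length at most `4 Y / (s √|f|)`.
-/

set_option autoImplicit false

open Finset Polynomial Filter

namespace Pool.Agent.Results.MP_9a3fdb_ag.FewExceptionalPairs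

open Pool.Agent.R920.CH

/-- The integers `k` and `d > 0` satisfy `0 < k + n + 1 ≤ d + 1`, and `c₁ = k + n + 1`, `c₂ = d` satisfy
the Riemann-Roch conditions on `ℙⁿ` (here `n` is called `N`). -/
def Possible (N : ℕ) (k d : ℤ) : Prop :=
  0 < d ∧ 0 < k + N + 1 ∧ k + N + 1 ≤ d + 1 ∧ RiemannRoch N (X ^ 2 - C (k + N + 1) * X + C d)

/-- `k` and `d` are those of a transversal intersection of hypersurfaces of degrees `a` and `b`. -/
def IsCI (N : ℕ) (k d : ℤ) : Prop := ∃ a b : ℤ, 0 < a ∧ 0 < b ∧ k = a + b - N - 1 ∧ d = a * b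

theorem pairs (A ε : ℝ) (hε : 0 < ε) : ∀ᶠ N : ℕ in atTop, ∀ Y : ℝ, 1 ≤ Y → Y ≤ (N : ℝ) ^ A →
    ∀ S : Finset (ℤ × ℤ), (∀ s ∈ S, Possible N s.1 s.2 ∧ (s.2 : ℝ) ≤ Y ∧ ¬ IsCI N s.1 s.2) →
      (S.card : ℝ) ≤ Y / (N : ℝ) ^ (2 * Real.exp (1 / 2) - ε) := by
  classical
  filter_upwards [Pool.Agent.Run7.h572.FD.pairs_card A ε hε] with N hN Y hY1 hYA S hS
  have h1 := hN Y hY1 hYA (S.image fun s => (s.1 + N + 1, s.2)) (by
    intro c hc
    rw [mem_image] at hc
    obtain ⟨⟨k, d⟩, hs, rfl⟩ := hc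
    obtain ⟨⟨h1, h2, h3, h4⟩, h5, h6⟩ := hS _ hs
    simp only at h1 h2 h3 h4 h5 h6 ⊢
    refine ⟨by linarith, h3, by linarith, h5, h4, ?_⟩
    intro hsq
    obtain ⟨a, b, hab1, hab2⟩ := Pool.Agent.R852.LK.split_of_square _ _ hsq
    apply h6
    have hab : 0 < a * b := by rw [← hab2]; exact h1
    have hs : 0 < a + b := by rw [← hab1]; exact h2
    rcases mul_pos_iff.1 hab with ⟨ha, hb⟩ | ⟨ha, hb⟩
    · exact ⟨a, b, ha, hb, by linarith, hab2⟩
    · linarith)
  rwa [card_image_of_injective _ (by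
    rintro ⟨a, b⟩ ⟨a', b'⟩ h
    simp only [Prod.mk.injEq] at h ⊢
    exact ⟨by linarith [h.1], h.2⟩)] at h1

open Classical in
/-- **Few exceptional degrees and canonical classes in codimension two.** -/
theorem result (A ε : ℝ) (hε : 0 < ε) : ∃ N₀ : ℕ, ∀ N ≥ N₀, ∀ Y : ℝ, 1 ≤ Y → Y ≤ (N : ℝ) ^ A →
    (∀ S : Finset (ℤ × ℤ), (∀ s ∈ S, Possible N s.1 s.2 ∧ (s.2 : ℝ) ≤ Y ∧ ¬ IsCI N s.1 s.2) →
      (S.card : ℝ) ≤ Y / (N : ℝ) ^ (2 * Real.exp (1 / 2) - ε)) ∧
    (((Icc 1 ⌊Y⌋₊).filter fun d : ℕ => ∃ k : ℤ, Possible N k d ∧ ¬ IsCI N k d).card : ℝ) ≤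
      Y / (N : ℝ) ^ (2 * Real.exp (1 / 2) - ε) := by
  obtain ⟨N₀, h⟩ := eventually_atTop.mp (pairs A ε hε)
  refine ⟨N₀, fun N hN Y hY hYN => ?_⟩
  have hp := h N hN Y hY hYN
  have hY0 : 0 ≤ Y := by linarith
  have hd : ∀ T : Finset ℕ, (∀ d ∈ T, d ∈ Icc 1 ⌊Y⌋₊ ∧ ∃ k : ℤ, Possible N k d ∧ ¬ IsCI N k d) →
      (T.card : ℝ) ≤ Y / (N : ℝ) ^ (2 * Real.exp (1 / 2) - ε) := by
    intro T hT
    choose! κ hκ using fun d hd => (hT d hd).2
    have h1 := hp (T.image fun d => (κ d, (d : ℤ))) (by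
      intro s hs
      obtain ⟨d, hdT, rfl⟩ := mem_image.1 hs
      refine ⟨(hκ d hdT).1, ?_, (hκ d hdT).2⟩
      have h2 := (mem_Icc.1 (hT d hdT).1).2
      have h3 : (d : ℝ) ≤ Y := (Nat.le_floor_iff hY0).1 h2
      simpa using h3)
    rwa [card_image_of_injective _ (by
      intro a b hab
      simp only [Prod.mk.injEq, Nat.cast_inj] at hab
      exact hab.2)] at h1
  refine ⟨hp, ?_⟩
  apply hd
  intro d hd'
  rw [mem_filter] at hd'
  exact hd'

end Pool.Agent.Results.MP_9a3fdb_ag.FewExceptionalPairs
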