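import Pool.Agent.Run7.h740.BC.Quad

/-!
# Smooth subvarieties of every codimension: quadratic Chern roots generate fields of large discriminant

Let `X ⊂ ℙ^N` be a smooth subvariety of codimension `r`, `N ≥ 4 r`. By Barth and Larsen the groups
`H^(2 i)(X, ℤ)`, `i ≤ r`, are generated by the powers of the hyperplane class `h`, and `Pic X = ℤ h`;
so `ω_X = O_X(k)` for some `k`, and the Chern polynomial `P = T^r - c₁ T^(r-1) + c₂ T^(r-2) - ...` of
the normal bundle (`c_i(N_X) = c_i h^i`) has integral coefficients, `c₁ = k + N + 1` by adjunction.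
Its complex roots are the Chern roots of `N_X` in units of `h`, and `c_r = (-1)^r P(0)` is the
degree of `X` (self-intersection formula). `X` is numerically a complete intersection of hypersurfaces
of degrees `a_1, ..., a_r` if and only if `P = (T - a_1) ... (T - a_r)`. The following is known:

* `N_X(-1)`, a quotient of `T_ℙ(-1)`, is globally generated, so its Schur polynomials are not negative
  (for all nef bundles: Demailly, Peternell, Schneider): `c_i ≥ 0` and `c_1 c_i - c_(i+1) ≥ 0` for the
  Chern classes of `N_X(-1)`; these are the signed coefficients of `P(T + 1)`;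
* `χ(O_X(t))` is an integer for all `t`; by the theorem of Riemann-Roch it is the Koszul sum
  `Σ_S (-1)^|S| χ(ℙ^N, O(t - Σ_(i ∈ S) β_i))`;
* `χ(N_X^*(t))` is an integer for all `t`; it is `Σ_i χ(O_X(t - β_i))`.

We show: for all `r ≥ 1`, `ε > 0` there are `c > 0` and `N₀` such that for `N ≥ N₀`: let `T² - u T + v` be a
divisor of `P` with integral coefficients, and write `u² - 4 v = f s²` with integers `f`, `s`, for
instance with the squarefree part `f`. If

  `k ≤ exp (N ^ c)`, or at most `N ^ c` primes below `N` divide `c_r (u² - 4 v)`,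

and if `|f| ≤ N ^ (4 √e - ε)`, `4 √e = 6.59…`, then `T² - u T + v = (T - a) (T - b)` with positive
integers `a`, `b`. So the Chern roots which are of degree two over `ℚ` generate quadratic fields
of discriminant larger than `N ^ (4 √e - ε)`, for all `X` with `k ≤ exp (N ^ c)`. For `r = 2` the divisor can
be `P`: `X` is numerically a complete intersection if the squarefree part of `c₁² - 4 c₂` is at most
`N ^ (4 √e - ε)`.

The starting theorem `SmallCanonicalClass` has `k ≤ N ^ (2 √e / 3 - ε)`, so that the discriminants of all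
the divisors of degree two are less than `N ^ (4 √e - ε)`.

The proof. The two integrality conditions imply that `P` splits modulo every prime
`r < p ≤ N - 2 r + 1` which does not divide the degree (project HC of the starting files). So `f` is a
square modulo all these primes which do not divide `c_r s`. We show in
`Pool.Agent.Results.MP_b01859_ag.HugeDiscriminants` and the files used there that an integer
`f`, `|f| ≤ y ^ (4 √e - ε)`, which is a square modulo all but at most `y ^ c` of the primes up to `y` is a
square, by the bound of Burgess, the fundamental lemma of the sieve and the method of Vinogradov. By the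
Schur positivity the Chern roots have absolute value at most `2 (k + N + 1)`, so that the number
of the primes dividing `c_r (u² - 4 v)` is small if `k ≤ exp (N ^ c)`.
-/

set_option autoImplicit false

namespace Pool.Agent.Results.MP_9a3fdb_ag.QuadraticChernRoots

open Polynomial

/-- The Chern roots: the complex roots of `P` with multiplicities. -/
noncomputable def chernRoots (P : ℤ[X]) : Multiset ℂ := (P.map (Int.castRingHom ℂ)).roots

/-- The Chern numbers of `N_X(-1)`: `(-1)^i` times the coefficient of `T^(r - i)` in `P(T + 1)`,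
`i ≤ r`. -/
noncomputable def chernTwist (r : ℕ) (P : ℤ[X]) (i : ℕ) : ℤ :=
  (-1) ^ i * (P.comp (X + 1)).coeff (r - i)

/-- `χ(ℙ^N, O(x)) = (x + 1) ... (x + N) / N!`. -/
noncomputable def chiPN (N : ℕ) (x : ℂ) : ℂ :=
  (∏ j ∈ Finset.range N, (x + j + 1)) / N.factorial

/-- `χ(O_X(x)) = Σ_S (-1)^|S| χ(ℙ^N, O(x - β_S))`, `S` running over the submultisets of the multiset
of the Chern roots of the normal bundle, `β_S` the sum of the elements of `S`. -/
noncomputable def chiX (N : ℕ) (P : ℤ[X]) (x : ℂ) : ℂ :=
  ((chernRoots P).powerset.map fun S => (-1) ^ Multiset.card S * chiPN N (x - S.sum)).sum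

/-- `χ(N_X^*(x)) = Σ_i χ(O_X(x - β_i))`. -/
noncomputable def chiConormal (N : ℕ) (P : ℤ[X]) (x : ℂ) : ℂ :=
  ((chernRoots P).map fun b => chiX N P (x - b)).sum

open Pool.Agent.N17.HC in
theorem bin_eq (N : ℕ) (x : ℂ) : bin N (N + x) = chiPN N x := by
  unfold bin chiPN
  congr 1
  rw [← Finset.prod_range_reflect]
  refine Finset.prod_congr rfl fun j hj => ?_
  have hj' := Finset.mem_range.1 hj
  rw [show N - 1 - j = N - (j + 1) by omega, Nat.cast_sub (by omega)]
  push_cast
  ring

open Pool.Agent.N17.HC in
theorem kos_eq (N : ℕ) (P : ℤ[X]) (x : ℂ) : kos N (rootsOf P) (N + x) = chiX N P x := by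
  unfold kos chiX
  change Multiset.sum (Multiset.map _ (Multiset.powerset (chernRoots P))) = _
  congr 1
  refine Multiset.map_congr rfl fun S _ => ?_
  rw [add_sub_assoc, bin_eq]

/-- **Quadratic Chern roots of smooth subvarieties of codimension `r` of `ℙ^N` generate fields of large
discriminant.** -/
theorem result (r : ℕ) (hr : 1 ≤ r) (ε : ℝ) (hε : 0 < ε) : ∃ c : ℝ, 0 < c ∧ ∃ N₀ : ℕ, ∀ N : ℕ, N₀ ≤ N →
    ∀ P : ℤ[X], P.Monic → P.natDegree = r →
    -- the Schur polynomials `c_i` and `c_1 c_i - c_(i+1)` of `N_X(-1)` are not negative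
    (∀ i ≤ r, 0 ≤ chernTwist r P i) →
    (∀ i < r, chernTwist r P (i + 1) ≤ chernTwist r P 1 * chernTwist r P i) →
    -- the Euler characteristics of `O_X(t)` and of `N_X^*(t)` are integers
    (∀ t : ℤ, ∃ z : ℤ, chiX N P t = z) →
    (∀ t : ℤ, ∃ z : ℤ, chiConormal N P t = z) →
    -- `ω_X = O_X(k)`: `c_1(N_X) = k + N + 1`
    ∀ k : ℤ, P.coeff (r - 1) = - (k + N + 1) →
    -- a divisor of `P` of degree two, with the discriminant `f s²`, `f` not too large
    ∀ u v f s : ℤ, X ^ 2 - C u * X + C v ∣ P → u ^ 2 - 4 * v = f * s ^ 2 →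
    (|f| : ℤ) ≤ (N : ℝ) ^ (4 * Real.exp (1 / 2) - ε) →
    -- `k` is not too large, or few primes below `N` divide the degree and the discriminant
    ((k : ℝ) ≤ Real.exp ((N : ℝ) ^ c) ∨
      (((Finset.range N).filter fun p : ℕ => p.Prime ∧ (p : ℤ) ∣ P.coeff 0 * (u ^ 2 - 4 * v)).card : ℝ) ≤
        (N : ℝ) ^ c) →
    -- the divisor has positive integral roots
    ∃ a b : ℤ, 1 ≤ a ∧ 1 ≤ b ∧ X ^ 2 - C u * X + C v = (X - C a) * (X - C b) := by
  obtain ⟨c, hc0, h⟩ := Pool.Agent.Run7.h740.BC.quad5 r hr ε hε
  obtain ⟨N₀, h'⟩ := Filter.eventually_atTop.mp h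
  refine ⟨c, hc0, N₀, fun N hN P hP hd hpos hsch h1 h2 k hk u v f s hdvd hfs hf hcond =>
    h' N hN P hP hd hpos hsch ?_ ?_ k hk u v f s hdvd hfs hf hcond⟩
  · intro t
    obtain ⟨z, hz⟩ := h1 t
    exact ⟨z, by rw [kos_eq]; exact hz⟩
  · intro t
    obtain ⟨z, hz⟩ := h2 t
    refine ⟨z, ?_⟩
    rw [← hz]
    unfold chiConormal
    change Multiset.sum (Multiset.map _ (chernRoots P)) = _
    congr 1
    refine Multiset.map_congr rfl fun b _ => ?_
    rw [add_sub_assoc, kos_eq]

end Pool.Agent.Results.MP_9a3fdb_ag.QuadraticChernRoots
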