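import Pool.Agent.Run7.h445.QS.Main

/-!
# Quadratic subfields of the field of the Chern roots, in every codimension

Let `X ⊂ ℙ^N` be a smooth subvariety of codimension `r`, `N ≥ 4 r`, `N` large. By Barth and Larsen
the groups `H^(2 i)(X, ℤ)`, `i ≤ r`, are generated by the powers of the hyperplane class `h`, and
`Pic X = ℤ h`; so `ω_X = O_X(k)` for some `k`, and the Chern polynomial
`P = T^r - c₁ T^(r-1) + c₂ T^(r-2) - ...` of the normal bundle (`c_i(N_X) = c_i h^i`) has integral
coefficients, `c₁ = k + N + 1` by adjunction. Its complex roots are the Chern roots of `N_X` in units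
of `h`. If `X` is a complete intersection of hypersurfaces of degrees `a_1, ..., a_r`, the Chern roots
are the integers `a_i`: Hartshorne's conjecture predicts that the field generated by the Chern roots
is `ℚ`. The following is known (see the starting result `SmallCanonicalClass`):

* `N_X(-1)` is globally generated, so its Schur polynomials `c_i` and `c_1 c_i - c_(i+1)` are not
  negative; the Chern classes of `N_X(-1)` are the signed coefficients of `P(T + 1)`;
* `χ(O_X(t))` is an integer for all `t`; by the theorem of Riemann-Roch it is the Koszul sum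
  `Σ_S (-1)^|S| χ(ℙ^N, O(t - Σ_(i ∈ S) β_i))`;
* `χ(N_X^*(t))` is an integer for all `t`; it is `Σ_i χ(O_X(t - β_i))`.

We show: for all `r ≥ 1`, all real `A` and `ε > 0` and all sufficiently large `N` there is a set `F` of
at most `N ^ ε` squarefree integers `f`, all with `|f| ≥ N ^ (4 √e - ε)`, `4 √e = 6.59...`, such that
for ALL smooth subvarieties `X ⊂ ℙ^N` of codimension `r` with `ω_X = O_X(k)`, `k ≤ N ^ A` (without any
bound for the degree of `X`): every quadratic subfield of the field generated by the Chern roots of `X`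
is one of the fields `ℚ(√f)`, `f ∈ F`.

So for the quadratic fields (among them the one generated by the square root of the discriminant of
`P`, if this is not a square, and those generated by the roots of a quadratic factor of `P`) what the
conjecture predicts holds up to at most `N ^ ε` exceptional fields, which have large discriminants.
`SmallCanonicalClass` treats `k ≤ N ^ (2 √e / 3 - ε)` and the roots of degree at most three;
`MP_014caa_ag.FewExceptionalDegrees` counts the exceptional pairs `(k, d)` in codimension two.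

Proof. (1) The two integrality conditions imply that `P` splits modulo every prime
`r < p ≤ N - 2 r + 1` which does not divide the degree `d` of `X` (`Pool.Agent.N17.HC.FIN.loc`).
(2) By the Schur positivity the roots have absolute value at most `R = 7 N ^ max(A, 1)`. (3) Let
`x ² = D` be a nonsquare integer, `x` in the field `K` of the Chern roots, `G = Gal(K/ℚ)`,
`|G| ≤ r ^ r`. The monomials of degree `≤ r ^ r` in the Chern roots generate `K` as a vector space, so
there is one, `m`, such that `y = Σ_σ (σ(x) / x) σ(m) = Tr(x m) / x` is not zero. Then `E = y²` is an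
integer, `|E| ≤ (r ^ r R ^ (r ^ r))²`, `D E` is a square, and, as `y` is in the ring generated by the
Chern roots and these are congruent to integers modulo all prime ideals above a prime `p` such that `P`
splits modulo `p`, `E` is a square modulo all these `p`. (4) By Burgess' bound, the method of
Vinogradov and a large sieve of the kind of Linnik's theorem on the least non-residue (helper852,
`Pool.Agent.R852`; the primes dividing `d` are few) there are at most `N ^ ε` possible squarefree
kernels of `E`, and these are at least `N ^ (4 √e - ε)`.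
-/

set_option autoImplicit false

namespace Pool.Agent.Results.MP_9a3fdb_ag.QuadraticSubfields

open Polynomial

/-- The Chern roots: the complex roots of `P` with multiplicities. -/
noncomputable def chernRoots (P : ℤ[X]) : Multiset ℂ := (P.map (Int.castRingHom ℂ)).roots

/-- The field generated by the Chern roots. -/
noncomputable def chernField (P : ℤ[X]) : IntermediateField ℚ ℂ :=
  IntermediateField.adjoin ℚ {β | β ∈ chernRoots P}

/-- The Chern numbers of `N_X(-1)`: `(-1)^i` times the coefficient of `T^(r - i)` in `P(T + 1)`,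
`i ≤ r`. -/
noncomputable def chernTwist (r : ℕ) (P : ℤ[X]) (i : ℕ) : ℤ :=
  (-1) ^ i * (P.comp (X + 1)).coeff (r - i)

/-- `χ(ℙ^N, O(x)) = (x + 1) ... (x + N) / N!`. -/
noncomputable def chiPN (N : ℕ) (x : ℂ) : ℂ :=
  (∏ j ∈ Finset.range N, (x + j + 1)) / N.factorial

/-- `χ(O_X(x)) = Σ_S (-1)^|S| χ(ℙ^N, O(x - β_S))`, `S` running over the submultisets of the multiset
of the Chern roots of the normal bundle, `β_S` the sum of the elements of `S`. -/
noncomputable def chiX (N : ℕ) (P : ℤ[X]) (x : ℂ) : ℂ :=
  ((chernRoots P).powerset.map fun S => (-1) ^ Multiset.card S * chiPN N (x - S.sum)).sum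

/-- `χ(N_X^*(x)) = Σ_i χ(O_X(x - β_i))`. -/
noncomputable def chiConormal (N : ℕ) (P : ℤ[X]) (x : ℂ) : ℂ :=
  ((chernRoots P).map fun b => chiX N P (x - b)).sum

open Pool.Agent.N17.HC in
theorem bin_eq (N : ℕ) (x : ℂ) : bin N (N + x) = chiPN N x := by
  unfold bin chiPN
  congr 1
  rw [← Finset.prod_range_reflect]
  refine Finset.prod_congr rfl fun j hj => ?_
  have hj' := Finset.mem_range.1 hj
  rw [show N - 1 - j = N - (j + 1) by omega, Nat.cast_sub (by omega)]
  push_cast
  ring

open Pool.Agent.N17.HC in
theorem kos_eq (N : ℕ) (P : ℤ[X]) (x : ℂ) : kos N (rootsOf P) (N + x) = chiX N P x := by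
  unfold kos chiX
  change Multiset.sum (Multiset.map _ (Multiset.powerset (chernRoots P))) = _
  congr 1
  refine Multiset.map_congr rfl fun S _ => ?_
  rw [add_sub_assoc, bin_eq]

/-- **Quadratic fields in the fields of Chern roots**: for all smooth subvarieties of codimension `r`
of `ℙ^N` with `ω_X = O_X(k)`, `k ≤ N ^ A`, together, at most `N ^ ε` quadratic fields occur, and these
are the `ℚ(√f)` for squarefree `f` with `|f| ≥ N ^ (4 √e - ε)`. -/
theorem result (r : ℕ) (hr : 1 ≤ r) (A ε : ℝ) (hε : 0 < ε) : ∃ N₀ : ℕ, ∀ N : ℕ, N₀ ≤ N →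
    ∃ F : Finset ℤ, (F.card : ℝ) ≤ (N : ℝ) ^ ε ∧
    (∀ f ∈ F, Squarefree f ∧ (N : ℝ) ^ (4 * Real.exp (1 / 2) - ε) ≤ |(f : ℝ)|) ∧
    ∀ P : ℤ[X], P.Monic → P.natDegree = r →
    -- the Schur polynomials `c_i` and `c_1 c_i - c_(i+1)` of `N_X(-1)` are not negative
    (∀ i ≤ r, 0 ≤ chernTwist r P i) →
    (∀ i < r, chernTwist r P (i + 1) ≤ chernTwist r P 1 * chernTwist r P i) →
    -- the Euler characteristics of `O_X(t)` and of `N_X^*(t)` are integers
    (∀ t : ℤ, ∃ z : ℤ, chiX N P t = z) →
    (∀ t : ℤ, ∃ z : ℤ, chiConormal N P t = z) →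
    -- `ω_X = O_X(k)`: `c_1(N_X) = k + N + 1`
    ∀ k : ℤ, P.coeff (r - 1) = - (k + N + 1) → (k : ℝ) ≤ (N : ℝ) ^ A →
    -- the quadratic subfields of the field of the Chern roots are in the list
    ∀ L : IntermediateField ℚ ℂ, L ≤ chernField P → Module.finrank ℚ L = 2 →
      ∃ f ∈ F, ∃ z : ℂ, z ^ 2 = (f : ℂ) ∧ L = IntermediateField.adjoin ℚ {z} := by
  obtain ⟨N₀, h⟩ := Pool.Agent.Run7.h445.QS.final r hr A ε hε
  refine ⟨N₀, fun N hN => ?_⟩
  obtain ⟨F, hF1, hF2, hF3⟩ := h N hN
  refine ⟨F, hF1, hF2, fun P hP hd hpos hsch h1 h2 k hk hle L hL hL2 =>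
    hF3 P hP hd hpos hsch ?_ ?_ k hk hle L hL hL2⟩
  · intro t
    obtain ⟨z, hz⟩ := h1 t
    exact ⟨z, by rw [kos_eq]; exact hz⟩
  · intro t
    obtain ⟨z, hz⟩ := h2 t
    refine ⟨z, ?_⟩
    rw [← hz]
    unfold chiConormal
    change Multiset.sum (Multiset.map _ (chernRoots P)) = _
    congr 1
    refine Multiset.map_congr rfl fun b _ => ?_
    rw [add_sub_assoc, kos_eq]

end Pool.Agent.Results.MP_9a3fdb_ag.QuadraticSubfields
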